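import Mathlib
import Pool.Agent.U723.OC.Stm

/-!
# Project OC, package M1: tiny circles orthogonal to two orthogonal circles
-/

set_option autoImplicit false

open Metric Set Complex ComplexConjugate

namespace Pool.Agent.U928.OC

open Pool.Agent.U723.OC

theorem circle_id (v q α : ℂ) (h : normSq q = 2 * (q * conj α).re) :
    normSq (v * q + α * (1 - v)) = normSq (1 - v) * normSq α + 2 * (v * q * conj α).re := by
  simp only [normSq_apply, mul_re, mul_im, conj_re, conj_im, add_re, add_im, sub_re, sub_im,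
    one_re, one_im] at h ⊢
  linear_combination (v.re ^ 2 + v.im ^ 2) * h

theorem centre_id (x y a b s : ℝ) (hs : 1 - s ^ 2 ≠ 0) :
    (x + s ^ 2 / (1 - s ^ 2) * a) ^ 2 + (y + s ^ 2 / (1 - s ^ 2) * b) ^ 2 -
      s ^ 2 * (a ^ 2 + b ^ 2) / (1 - s ^ 2) ^ 2 =
    ((x ^ 2 + y ^ 2) - s ^ 2 * ((x - a) ^ 2 + (y - b) ^ 2)) / (1 - s ^ 2) := by
  field_simp
  ring

theorem orth_id (x y a b s : ℝ) (hs : 1 - s ^ 2 ≠ 0) (h : a ^ 2 + b ^ 2 = 2 * (a * x + b * y)) :
    (x + s ^ 2 / (1 - s ^ 2) * a) ^ 2 + (y + s ^ 2 / (1 - s ^ 2) * b) ^ 2 =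
      (x ^ 2 + y ^ 2) + s ^ 2 * (a ^ 2 + b ^ 2) / (1 - s ^ 2) ^ 2 := by
  have h1 : (x + s ^ 2 / (1 - s ^ 2) * a) ^ 2 + (y + s ^ 2 / (1 - s ^ 2) * b) ^ 2 =
      (x ^ 2 + y ^ 2) + s ^ 2 / (1 - s ^ 2) * (2 * (a * x + b * y)) +
        (s ^ 2 / (1 - s ^ 2)) ^ 2 * (a ^ 2 + b ^ 2) := by ring
  rw [h1, ← h]
  field_simp
  ring

/-- the circle of the points whose distance to `p` is `s` times the distance to `p + q` -/
noncomputable def DD (p q : ℂ) (s : ℝ) (hs : 0 < s) (hs1 : s < 1) (hq : q ≠ 0) : Circ where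
  c := p - ((s ^ 2 / (1 - s ^ 2) : ℝ) : ℂ) * q
  r := s * ‖q‖ / (1 - s ^ 2)
  pos := by
    have h1 : 0 < ‖q‖ := norm_pos_iff.2 hq
    have h2 : 0 < 1 - s ^ 2 := by nlinarith
    positivity

section DD

variable (p q : ℂ) (s : ℝ) (hs : 0 < s) (hs1 : s < 1) (hq : q ≠ 0)

theorem DD_sq (z : ℂ) : dist z (DD p q s hs hs1 hq).c ^ 2 - (DD p q s hs hs1 hq).r ^ 2 =
    (‖z - p‖ ^ 2 - s ^ 2 * ‖z - p - q‖ ^ 2) / (1 - s ^ 2) := by
  have h2 : (1 - s ^ 2) ≠ 0 := by nlinarith
  have h3 := centre_id (z.re - p.re) (z.im - p.im) q.re q.im s h2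
  rw [dist_eq, DD, Complex.sq_norm, Complex.sq_norm, Complex.sq_norm, div_pow, mul_pow,
    Complex.sq_norm]
  simp only [normSq_apply, sub_re, sub_im, mul_re, mul_im, ofReal_re, ofReal_im, zero_mul,
    sub_zero, add_zero] at h3 ⊢
  linear_combination h3

theorem mem_disc (z : ℂ) : z ∈ (DD p q s hs hs1 hq).disc ↔ ‖z - p‖ ≤ s * ‖z - p - q‖ := by
  have h1 := DD_sq p q s hs hs1 hq z
  have h2 : 0 < 1 - s ^ 2 := by nlinarith
  rw [Circ.disc, mem_closedBall, ← sq_le_sq₀ dist_nonneg (DD p q s hs hs1 hq).pos.le,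
    ← sq_le_sq₀ (norm_nonneg _) (by positivity), mul_pow, ← sub_nonpos, h1, div_nonpos_iff]
  constructor
  · rintro (⟨h3, h4⟩ | ⟨h3, h4⟩)
    · linarith
    · linarith
  · intro h3
    exact Or.inr ⟨by linarith, h2.le⟩

theorem mem_pts (z : ℂ) : z ∈ (DD p q s hs hs1 hq).pts ↔ ‖z - p‖ = s * ‖z - p - q‖ := by
  have h1 := DD_sq p q s hs hs1 hq z
  have h2 : 1 - s ^ 2 ≠ 0 := by nlinarith
  rw [Circ.pts, mem_sphere, ← pow_left_inj₀ dist_nonneg (DD p q s hs hs1 hq).pos.le two_ne_zero,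
    ← pow_left_inj₀ (norm_nonneg _) (by positivity : 0 ≤ s * ‖z - p - q‖) two_ne_zero, mul_pow,
    ← sub_eq_zero, h1, div_eq_zero_iff]
  constructor
  · rintro (h3 | h3)
    · linarith
    · exact absurd h3 h2
  · intro h3
    exact Or.inl (by linarith)

theorem orth_DD (A : Circ) (hp : p ∈ A.pts) (h : normSq q = 2 * (q * conj (A.c - p)).re) :
    Orth A (DD p q s hs hs1 hq) := by
  have h2 : 1 - s ^ 2 ≠ 0 := by nlinarith
  have h3 : A.r ^ 2 = normSq (A.c - p) := by
    rw [Circ.pts, mem_sphere, dist_comm, dist_eq] at hp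
    rw [← Complex.sq_norm, hp]
  rw [Orth, h3, dist_eq, DD, Complex.sq_norm, div_pow, mul_pow, Complex.sq_norm]
  have h4 : q.re ^ 2 + q.im ^ 2 = 2 * (q.re * (A.c.re - p.re) + q.im * (A.c.im - p.im)) := by
    simp only [normSq_apply, mul_re, conj_re, conj_im, sub_re, sub_im] at h
    linarith
  have h5 := orth_id (A.c.re - p.re) (A.c.im - p.im) q.re q.im s h2 h4
  simp only [normSq_apply, sub_re, sub_im, mul_re, mul_im, ofReal_re, ofReal_im, zero_mul,
    sub_zero, add_zero] at h5 ⊢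
  linear_combination h5

end DD

/-- the condition for a point to be on a circle through `p` and `p + q` -/
theorem on_circle (A : Circ) (p q v : ℂ) (hp : p ∈ A.pts)
    (h : normSq q = 2 * (q * conj (A.c - p)).re) (hv : 1 - v ≠ 0) :
    p - v * q / (1 - v) ∈ A.pts ↔ (v * q * conj (A.c - p)).re = 0 := by
  have h3 : A.r ^ 2 = normSq (A.c - p) := by
    rw [Circ.pts, mem_sphere, dist_comm, dist_eq] at hp
    rw [← Complex.sq_norm, hp]
  have h4 := circle_id v q (A.c - p) h
  have h5 : normSq (1 - v) * dist (p - v * q / (1 - v)) A.c ^ 2 =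
      normSq (v * q + (A.c - p) * (1 - v)) := by
    rw [dist_eq, Complex.sq_norm, ← normSq_mul, ← normSq_neg]
    congr 1
    field_simp
    ring
  have h6 : 0 < normSq (1 - v) := normSq_pos.2 hv
  rw [Circ.pts, mem_sphere, ← pow_left_inj₀ dist_nonneg A.pos.le two_ne_zero, h3]
  constructor
  · intro h7
    rw [h7, h4] at h5
    linarith
  · intro h7
    rw [h4, h7, mul_zero, add_zero] at h5
    exact mul_left_cancel₀ h6.ne' h5

theorem exists_q (α β : ℂ) (hα : α ≠ 0) (hβ : β ≠ 0)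
    (h : α.re * β.re + α.im * β.im = 0) : ∃ (t : ℝ) (q : ℂ), t ≠ 0 ∧ β = I * t * α ∧ q ≠ 0 ∧
      normSq q = 2 * (q * conj α).re ∧ normSq q = 2 * (q * conj β).re := by
  have hN : α.re ^ 2 + α.im ^ 2 ≠ 0 := by
    have h1 := normSq_pos.2 hα
    rw [normSq_apply] at h1
    nlinarith
  obtain ⟨t, ht⟩ : ∃ t : ℝ, t = (α.re * β.im - α.im * β.re) / (α.re ^ 2 + α.im ^ 2) := ⟨_, rfl⟩
  have hβt : β = I * t * α := by
    apply Complex.ext
    · simp only [mul_re, mul_im, I_re, I_im, ofReal_re, ofReal_im]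
      rw [ht]
      field_simp
      linear_combination α.re * h
    · simp only [mul_re, mul_im, I_re, I_im, ofReal_re, ofReal_im]
      rw [ht]
      field_simp
      linear_combination α.im * h
  have ht0 : t ≠ 0 := by
    intro h0
    rw [h0] at hβt
    exact hβ (by simpa using hβt)
  have ht1 : t ^ 2 + 1 ≠ 0 := by positivity
  refine ⟨t, (⟨2 * t ^ 2 / (t ^ 2 + 1), 2 * t / (t ^ 2 + 1)⟩ : ℂ) * α, ht0, hβt, ?_, ?_, ?_⟩
  · apply mul_ne_zero _ hα
    intro h0
    have h1 := congrArg Complex.im h0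
    simp only [zero_im, div_eq_zero_iff, mul_eq_zero] at h1
    rcases h1 with (h1 | h1) | h1
    · norm_num at h1
    · exact ht0 h1
    · exact ht1 h1
  · simp only [normSq_apply, mul_re, mul_im, conj_re, conj_im]
    field_simp
    ring
  · rw [hβt]
    simp only [normSq_apply, mul_re, mul_im, conj_re, conj_im, I_re, I_im, ofReal_re, ofReal_im]
    field_simp
    ring

theorem t_M1 : S_M1 := by
  intro A B p hAB hpA hpB ε hε
  have hA1 : ‖A.c - p‖ = A.r := by
    have := hpA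
    rwa [Circ.pts, mem_sphere, dist_comm, dist_eq] at this
  have hB1 : ‖B.c - p‖ = B.r := by
    have := hpB
    rwa [Circ.pts, mem_sphere, dist_comm, dist_eq] at this
  have hA0 : A.c - p ≠ 0 := by rw [← norm_pos_iff, hA1]; exact A.pos
  have hB0 : B.c - p ≠ 0 := by rw [← norm_pos_iff, hB1]; exact B.pos
  have hperp : (A.c - p).re * (B.c - p).re + (A.c - p).im * (B.c - p).im = 0 := by
    have h1 := hAB
    rw [Orth, ← hA1, ← hB1, dist_eq, Complex.sq_norm, Complex.sq_norm, Complex.sq_norm] at h1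
    simp only [normSq_apply, sub_re, sub_im] at h1 ⊢
    linear_combination (-1 / 2 : ℝ) * h1
  obtain ⟨t, q, ht0, hBt, hq, hqA, hqB⟩ := exists_q _ _ hA0 hB0 hperp
  have hq' : 0 < ‖q‖ := norm_pos_iff.2 hq
  obtain ⟨s, hs, hs2, hsε⟩ : ∃ s : ℝ, 0 < s ∧ s ≤ 1 / 2 ∧ 4 * (s * ‖q‖) ≤ ε := by
    refine ⟨min (1 / 2) (ε / (4 * ‖q‖)), by positivity, min_le_left _ _, ?_⟩
    have h1 : min (1 / 2) (ε / (4 * ‖q‖)) ≤ ε / (4 * ‖q‖) := min_le_right _ _
    rw [le_div_iff₀ (by positivity)] at h1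
    linarith
  have hs1 : s < 1 := by linarith
  -- the rotation
  obtain ⟨γ, hγ⟩ : ∃ γ : ℂ, γ = q * conj (A.c - p) := ⟨_, rfl⟩
  have hγ0 : γ ≠ 0 := by
    rw [hγ]
    exact mul_ne_zero hq (by rwa [Ne, map_eq_zero])
  have hγ1 : 0 < ‖γ‖ := norm_pos_iff.2 hγ0
  obtain ⟨u, hu⟩ : ∃ u : ℂ, u = I * conj γ / (‖γ‖ : ℂ) := ⟨_, rfl⟩
  have hγc : ((‖γ‖ : ℝ) : ℂ) ≠ 0 := by exact_mod_cast hγ1.ne'
  have huγ : u * γ = I * (‖γ‖ : ℂ) := by
    have h1 : conj γ * γ = (‖γ‖ : ℂ) * (‖γ‖ : ℂ) := by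
      rw [mul_comm, mul_conj, normSq_eq_norm_sq]
      push_cast
      ring
    rw [hu]
    field_simp
    linear_combination h1
  have hun : ‖u‖ = 1 := by
    have h1 := congrArg norm huγ
    rw [norm_mul, norm_mul, norm_I, one_mul, norm_real, norm_norm] at h1
    exact mul_right_cancel₀ hγ1.ne' (by rw [h1, one_mul])
  have hu0 : u ≠ 0 := by rw [← norm_pos_iff, hun]; exact one_pos
  have hsc : (s : ℂ) ≠ 0 := by exact_mod_cast hs.ne'
  have hvn : ∀ w : ℂ, ‖(s : ℂ) * u * w‖ = s * ‖w‖ := by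
    intro w
    rw [norm_mul, norm_mul, hun, norm_real, Real.norm_of_nonneg hs.le, mul_one]
  have hv1 : ∀ w ∈ closedBall (0 : ℂ) 1, 1 - (s : ℂ) * u * w ≠ 0 := by
    intro w hw h0
    rw [mem_closedBall_zero_iff] at hw
    have h1 : (s : ℂ) * u * w = 1 := (sub_eq_zero.1 h0).symm
    have h2 := hvn w
    rw [h1, norm_one] at h2
    nlinarith
  -- distances
  have hd1 : ∀ w ∈ closedBall (0 : ℂ) 1, ‖(p - (s * u * w) * q / (1 - s * u * w)) - p‖ =
      s * ‖w‖ * ‖(p - (s * u * w) * q / (1 - s * u * w)) - p - q‖ := by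
    intro w hw
    have h1 := hv1 w hw
    have h2 : (p - (s * u * w) * q / (1 - s * u * w)) - p =
        (s * u * w) * ((p - (s * u * w) * q / (1 - s * u * w)) - p - q) := by
      field_simp
      ring
    rw [h2, norm_mul, hvn]
    rw [← h2]
  have hd2 : ∀ w ∈ closedBall (0 : ℂ) 1,
      0 < ‖(p - (s * u * w) * q / (1 - s * u * w)) - p - q‖ := by
    intro w hw
    have h1 := hv1 w hw
    rw [norm_pos_iff]
    have h2 : (p - (s * u * w) * q / (1 - s * u * w)) - p - q = -q / (1 - s * u * w) := by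
      field_simp
      ring
    rw [h2]
    exact div_ne_zero (neg_ne_zero.2 hq) h1
  refine ⟨DD p q s hs hs1 hq, fun w => p - (s * u * w) * q / (1 - s * u * w),
    orth_DD p q s hs hs1 hq A hpA hqA, orth_DD p q s hs hs1 hq B hpB hqB, ?_, ?_, ?_, ?_, ?_, ?_⟩
  · intro z hz
    rw [mem_disc] at hz
    rw [mem_ball, dist_eq]
    have h1 : ‖z - p - q‖ ≤ ‖z - p‖ + ‖q‖ := norm_sub_le _ _
    have h2 : 0 ≤ ‖z - p‖ := norm_nonneg _
    nlinarith
  · -- injectivity
    intro w hw w' hw' h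
    have h1 := hv1 w hw
    have h2 := hv1 w' hw'
    simp only at h
    have h3 : (s * u * w) * q / (1 - s * u * w) = (s * u * w') * q / (1 - s * u * w') := by
      linear_combination -h
    rw [div_eq_div_iff h1 h2] at h3
    have h4 : (s * u * q) * (w - w') = 0 := by linear_combination h3
    rcases mul_eq_zero.1 h4 with h5 | h5
    · exact absurd h5 (mul_ne_zero (mul_ne_zero hsc hu0) hq)
    · exact sub_eq_zero.1 h5
  · -- continuity
    apply ContinuousOn.sub continuousOn_const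
    apply ContinuousOn.div
    · fun_prop
    · fun_prop
    · exact hv1
  · -- the image
    ext z
    constructor
    · rintro ⟨w, hw, rfl⟩
      rw [mem_disc]
      simp only
      rw [hd1 w hw]
      rw [mem_closedBall_zero_iff] at hw
      have h1 : 0 ≤ ‖(p - (s * u * w) * q / (1 - s * u * w)) - p - q‖ := norm_nonneg _
      exact mul_le_mul_of_nonneg_right (by nlinarith) h1
    · intro hz
      rw [mem_disc] at hz
      have h0 : z - p - q ≠ 0 := by
        intro h0
        rw [h0, norm_zero, mul_zero] at hz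
        have h1 : z - p = 0 := norm_le_zero_iff.1 hz
        rw [h1, zero_sub, neg_eq_zero] at h0
        exact hq h0
      have h00 : 0 < ‖z - p - q‖ := norm_pos_iff.2 h0
      refine ⟨(z - p) / (z - p - q) / (s * u), ?_, ?_⟩
      · rw [mem_closedBall_zero_iff, norm_div, norm_div, norm_mul, hun, norm_real,
          Real.norm_of_nonneg hs.le, mul_one, div_le_one hs, div_le_iff₀ h00]
        exact hz
      · have h1 : (s : ℂ) * u * ((z - p) / (z - p - q) / (s * u)) = (z - p) / (z - p - q) := by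
          field_simp
        simp only
        rw [h1]
        have h2 : 1 - (z - p) / (z - p - q) = -q / (z - p - q) := by
          field_simp
          ring
        rw [h2]
        field_simp
        ring
  · simp
  · intro w hw
    have h1 := hv1 w hw
    have hvγ : (s * u * w) * q * conj (A.c - p) = ((s * ‖γ‖ : ℝ) : ℂ) * (I * w) := by
      rw [mul_assoc, ← hγ]
      push_cast
      linear_combination (s * w) * huγ
    refine ⟨?_, ?_, ?_⟩
    · rw [mem_pts]
      simp only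
      rw [hd1 w hw]
      have h2 := hd2 w hw
      constructor
      · intro h3
        have h4 := mul_right_cancel₀ h2.ne' h3
        exact mul_left_cancel₀ hs.ne' (by rw [h4, mul_one])
      · intro h3
        rw [h3, mul_one]
    · rw [on_circle A p q _ hpA hqA h1, hvγ]
      simp only [mul_re, mul_im, ofReal_re, ofReal_im, I_re, I_im]
      constructor
      · intro h3
        have h4 : (s * ‖γ‖) * w.im = 0 := by linear_combination -h3
        rcases mul_eq_zero.1 h4 with h5 | h5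
        · exact absurd h5 (by positivity)
        · exact h5
      · intro h3
        rw [h3]
        ring
    · rw [on_circle B p q _ hpB hqB h1, hBt, map_mul, map_mul, conj_I, conj_ofReal]
      have h6 : (s * u * w) * q * (-I * t * conj (A.c - p)) =
          -I * t * (((s * ‖γ‖ : ℝ) : ℂ) * (I * w)) := by
        rw [← hvγ]
        ring
      rw [h6]
      have h7 : -I * t * (((s * ‖γ‖ : ℝ) : ℂ) * (I * w)) = ((t * (s * ‖γ‖) : ℝ) : ℂ) * w := by
        push_cast
        linear_combination (-(t * (s * ‖γ‖) * w) : ℂ) * I_mul_I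
      rw [h7, re_ofReal_mul]
      constructor
      · intro h3
        rcases mul_eq_zero.1 h3 with h5 | h5
        · exact absurd h5 (mul_ne_zero ht0 (by positivity))
        · exact h5
      · intro h3
        rw [h3, mul_zero]

end Pool.Agent.U928.OC
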